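import Mathlib
import Pool.Agent.H57.Wei

set_option autoImplicit false

open Pool.Agent.H57.Wei

namespace Pool.Agent.Results.MP_2d238a_lc.NoGap

theorem pair_inj {x y x' y' : Baire} (h : pair x y = pair x' y') : x = x' ∧ y = y' :=
  ⟨funext fun n => (Nat.pair_eq_pair.1 (congrFun h n)).1,
    funext fun n => (Nat.pair_eq_pair.1 (congrFun h n)).2⟩

/-- the constant functional -/
def constF (c : ℕ) : Functional :=
  ⟨fun s => s.map fun _ => c, (Primrec.list_map Primrec.id (Primrec.const c).to₂).to_comp,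
    fun _ _ h => h.map _⟩

theorem eval_const (c : ℕ) (x : Baire) : (constF c).Eval x fun _ => c := fun n =>
  ⟨n, by simp [constF, pre, Function.comp_def]⟩

theorem head_mono {s t : List ℕ} (h : s <+: t) (hs : s ≠ []) : t.head? = s.head? := by
  obtain ⟨u, rfl⟩ := h
  cases s with
  | nil => exact absurd rfl hs
  | cons a s => rfl

/-- definition by cases on the first digit of `T x` -/
def iteF (T : Functional) (k : ℕ) (F G : Functional) : Functional where
  toFun s := if T.toFun s = [] then [] else if (T.toFun s).head? = some k then F.toFun s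
    else G.toFun s
  comp := by
    have h1 : Computable fun s => decide (T.toFun s = []) :=
      (Primrec.eq.decide.comp Primrec.id (Primrec.const [])).to_comp.comp T.comp
    have h2 : Computable fun s => decide ((T.toFun s).head? = some k) :=
      (Primrec.eq.decide.comp Primrec.list_head? (Primrec.const (some k))).to_comp.comp T.comp
    refine (Computable.cond h1 (Computable.const []) (Computable.cond h2 F.comp G.comp)).of_eq
      fun s => ?_
    simp only [Bool.cond_decide]
  mono s t h := by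
    by_cases hs : T.toFun s = []
    · simp [hs]
    have h1 := T.mono s t h
    have ht : T.toFun t ≠ [] := fun e => hs (by simpa [e] using h1)
    rw [if_neg hs, if_neg ht, head_mono h1 hs]
    split_ifs
    exacts [F.mono s t h, G.mono s t h]

theorem eval_ite {T F G : Functional} {k : ℕ} {x t y : Baire} (ht : T.Eval x t)
    (h1 : t 0 = k → F.Eval x y) (h2 : t 0 ≠ k → G.Eval x y) : (iteF T k F G).Eval x y := by
  obtain ⟨j, hj⟩ := ht 1
  have key : ∀ l, j ≤ l → T.toFun (pre x l) ≠ [] ∧ (T.toFun (pre x l)).head? = some (t 0) := by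
    intro l hl
    have := hj.trans (T.mono _ _ (pre_mono x hl))
    exact ⟨fun e => by rw [e] at this; simp [pre] at this,
      (head_mono this (by simp [pre])).trans (by simp [pre])⟩
  intro n
  by_cases hk : t 0 = k
  · obtain ⟨l, hl⟩ := h1 hk n
    obtain ⟨a, b⟩ := key (max j l) (le_max_left _ _)
    refine ⟨max j l, ?_⟩
    simp only [iteF, if_neg a, b, hk, if_true]
    exact hl.trans (F.mono _ _ (pre_mono x (le_max_right _ _)))
  · obtain ⟨l, hl⟩ := h2 hk n
    obtain ⟨a, b⟩ := key (max j l) (le_max_left _ _)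
    refine ⟨max j l, ?_⟩
    simp only [iteF, if_neg a, b, Option.some.injEq, if_neg hk]
    exact hl.trans (G.mono _ _ (pre_mono x (le_max_right _ _)))

theorem cases (T : Functional) (F : ℕ → Functional) (G : Functional) (N : ℕ) :
    ∃ H : Functional, ∀ x t y, T.Eval x t → (t 0 < N → (F (t 0)).Eval x y) →
      (N ≤ t 0 → G.Eval x y) → H.Eval x y := by
  induction N with
  | zero => exact ⟨G, fun x t y _ _ h => h (Nat.zero_le _)⟩
  | succ N ih =>
    obtain ⟨H, hH⟩ := ih
    refine ⟨iteF T N (F N) H, fun x t y ht h1 h2 => eval_ite ht (fun e => ?_) fun e => ?_⟩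
    · have := h1 (by omega)
      rwa [e] at this
    · exact hH x t y ht (fun h => h1 (by omega)) fun h => h2 (by omega)

/-- nested pairs -/
def tup (u : ℕ → Baire) (x : Baire) : ℕ → ℕ → Baire
  | _, 0 => x
  | i, k + 1 => pair (u i) (tup u x (i + 1) k)

theorem tup_eval (F : ℕ → Functional) (k : ℕ) : ∀ i, ∃ H : Functional,
    ∀ x (u : ℕ → Baire), (∀ j, (F j).Eval x (u j)) → H.Eval x (tup u x i k) := by
  induction k with
  | zero => exact fun _ => ⟨idF, fun x _ _ => eval_id x⟩
  | succ k ih =>
    intro i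
    obtain ⟨H, hH⟩ := ih (i + 1)
    exact ⟨pairF (F i) H, fun x u h => eval_pair (h i) (hH x u h)⟩

theorem proj_eval (m : ℕ) : ∃ P : Functional,
    ∀ (u : ℕ → Baire) x i k, m < k → P.Eval (tup u x i k) (u (i + m)) := by
  induction m with
  | zero =>
    refine ⟨fstF, fun u x i k hk => ?_⟩
    obtain ⟨k, rfl⟩ : ∃ l, k = l + 1 := ⟨k - 1, by omega⟩
    exact eval_fst _ _
  | succ m ih =>
    obtain ⟨P, hP⟩ := ih
    refine ⟨compF P sndF, fun u x i k hk => ?_⟩
    obtain ⟨k, rfl⟩ : ∃ l, k = l + 1 := ⟨k - 1, by omega⟩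
    have := hP u x (i + 1) k (by omega)
    rw [show i + 1 + m = i + (m + 1) by omega] at this
    exact eval_comp (eval_snd _ _) this

/-- If every `f n` is Weihrauch reducible to every `h m`, some problem lies between the two
families. In particular every chain of order type `ω + ω*` has an intermediate degree. -/
theorem result (f h : ℕ → Problem) (hfh : ∀ n m, WLe (f n) (h m)) :
    ∃ g : Problem, (∀ n, WLe (f n) g) ∧ ∀ m, WLe g (h m) := by
  choose F G H using hfh
  have : Nonempty Baire := ⟨fun _ => 0⟩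
  choose! U hU1 hU2 hU3 using H
  let enc : ℕ → Baire → Baire := fun n x =>
    pair (fun _ => n) (pair x (tup (fun m => U n m x) x 0 (n + 1)))
  have hinj : ∀ {n x n' x'}, enc n x = enc n' x' → n = n' ∧ x = x' := fun e =>
    ⟨congrFun (pair_inj e).1 0, (pair_inj (pair_inj e).2).1⟩
  refine ⟨fun z => {s | ∃ n x, (f n x).Nonempty ∧ z = enc n x ∧
    ((∃ y ∈ f n x, s = pair (fun _ => n + 1) y) ∨
      ∃ m ≤ n, ∃ y ∈ h m (U n m x), s = pair (fun _ => m) y)}, fun n => ?_, fun m => ?_⟩
  · obtain ⟨T, hT⟩ := tup_eval (F n) (n + 1) 0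
    obtain ⟨K, hK⟩ := cases (compF fstF sndF)
      (fun m => compF (G n m) (pairF fstF (compF sndF sndF))) (compF sndF sndF) (n + 1)
    refine ⟨pairF (constF n) (pairF idF T), K, fun x hx => ⟨enc n x,
      eval_pair (eval_const n x) (eval_pair (eval_id x) (hT x _ fun m => hU1 n m x hx)), ?_, ?_⟩⟩
    · obtain ⟨y, hy⟩ := hx
      exact ⟨_, n, x, ⟨y, hy⟩, rfl, Or.inl ⟨y, hy, rfl⟩⟩
    · rintro s ⟨n', x', -, e, hs⟩
      obtain ⟨rfl, rfl⟩ := hinj e
      rcases hs with ⟨y, hy, rfl⟩ | ⟨m, hm, y, hy, rfl⟩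
      · exact ⟨y, hK _ _ _ (eval_comp (eval_snd _ _) (eval_fst _ _)) (fun h => absurd h (by simp))
          fun _ => eval_comp (eval_snd _ _) (eval_snd _ _), hy⟩
      · obtain ⟨z, hz, hz'⟩ := hU3 n m x hx y hy
        exact ⟨z, hK _ _ _ (eval_comp (eval_snd _ _) (eval_fst _ _))
          (fun _ => eval_comp (eval_pair (eval_fst _ _)
            (eval_comp (eval_snd _ _) (eval_snd _ _))) hz) (fun h => absurd h (by omega)), hz'⟩
  · obtain ⟨P, hP⟩ := proj_eval m
    obtain ⟨K, hK⟩ := cases fstF (fun n => compF (F n m) (compF fstF sndF))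
      (compF P (compF sndF sndF)) m
    obtain ⟨L, hL⟩ := cases (compF fstF fstF)
      (fun n => pairF (constF (n + 1))
        (compF (G n m) (pairF (compF (compF fstF sndF) fstF) sndF)))
      (pairF (constF m) sndF) m
    refine ⟨K, L, ?_⟩
    rintro _ ⟨-, n, x, hx, rfl, -⟩
    refine ⟨U n m x, hK _ _ _ (eval_fst _ _)
      (fun _ => eval_comp (eval_comp (eval_snd _ _) (eval_fst _ _)) (hU1 n m x hx))
      (fun hm => eval_comp (eval_comp (eval_snd _ _) (eval_snd _ _)) ?_), hU2 n m x hx,
      fun y hy => ?_⟩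
    · have := hP (fun m => U n m x) x 0 (n + 1) (Nat.lt_succ_of_le hm)
      rwa [zero_add] at this
    · by_cases hm : n < m
      · obtain ⟨z, hz, hz'⟩ := hU3 n m x hx y hy
        exact ⟨pair (fun _ => n + 1) z, hL _ _ _ (eval_comp (eval_fst _ _) (eval_fst _ _))
          (fun _ => eval_pair (eval_const _ _) (eval_comp (eval_pair (eval_comp (eval_fst _ _)
            (eval_comp (eval_snd _ _) (eval_fst _ _))) (eval_snd _ _)) hz))
          (fun h => absurd h (by omega)), n, x, hx, rfl, Or.inl ⟨z, hz', rfl⟩⟩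
      · exact ⟨pair (fun _ => m) y, hL _ _ _ (eval_comp (eval_fst _ _) (eval_fst _ _))
          (fun h => absurd h hm) (fun _ => eval_pair (eval_const _ _) (eval_snd _ _)),
          n, x, hx, rfl, Or.inr ⟨m, by omega, y, hy, rfl⟩⟩

end Pool.Agent.Results.MP_2d238a_lc.NoGap
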